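import Pool.Agent.Run7.h594.OD.NearB

/-!
# Piece NEAR: 2-adic near-overconvergence of the primitives `F`
-/

set_option autoImplicit false

namespace H594.OD

open Polynomial H809.OD


/-- `D - j p'` on the lattice -/
lemma nab_spec (h : Theta) (N j : ℕ) (g : Z2') :
    DD (w ^ N * gz g) - (j : PowerSeries ℚ) * pu * (w ^ N * gz g) = w ^ N * gz (nab N j g) := by
  rw [DD_mul, DD_gz h, DD_w_pow h, nab]
  simp only [map_add, map_mul, map_sub, map_natCast, gz_X, gz_C, fz_pv]
  ring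

/-- iterates -/
noncomputable def GG (N : ℕ) (R : Z1) : ℕ → Z2'
  | 0 => C R
  | j + 1 => nab N (j + 1) (GG N R j)

lemma GG_deg (N : ℕ) (R : Z1) (j : ℕ) : (GG N R j).natDegree ≤ N := by
  induction j with
  | zero => rw [GG, natDegree_C]; exact Nat.zero_le _
  | succ j ih => exact nab_deg N (j + 1) _ ih

lemma GG_dvd (N : ℕ) (R : Z1) (k j : ℕ) (hj : 4 * k ≤ j) : (2 : Z2') ^ k ∣ GG N R j := by
  induction k generalizing j with
  | zero => simp
  | succ k ih =>
    obtain ⟨i, rfl⟩ : ∃ i, j = i + 4 := ⟨j - 4, by omega⟩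
    obtain ⟨g, hg⟩ := ih i (by omega)
    obtain ⟨a, ha⟩ := nab_four N (i + 1) g
    refine ⟨a, ?_⟩
    show nab N (i + 4) (nab N (i + 3) (nab N (i + 2) (nab N (i + 1) (GG N R i)))) = _
    rw [hg, nab_two_pow, nab_two_pow, nab_two_pow, nab_two_pow, ha]
    ring

lemma TJ_smul (j : ℕ) (c : ℚ) (f : PowerSeries ℚ) :
    TJ j (PowerSeries.C c * f) = PowerSeries.C c * TJ j f := by
  have hD : ∀ g : PowerSeries ℚ, DD (PowerSeries.C c * g) = PowerSeries.C c * DD g := by
    intro g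
    rw [DD, DD, ← PowerSeries.smul_eq_C_mul, th.map_smul, PowerSeries.smul_eq_C_mul]
    ring
  induction j with
  | zero => rfl
  | succ j ih => rw [TJ_succ, TJ_succ, ih, hD]; ring

/-- `2^r T_{j+1} F` lies in the lattice -/
lemma TJ_GG (h : Theta) (N : ℕ) (R : Z1) (F : PowerSeries ℚ)
    (hF : th F = w ^ (N + 2) * aeval u R) (j : ℕ) :
    2 ^ R.natDegree * TJ (j + 1) F = w ^ N * gz (GG N (scaleRoots R 2) j) := by
  induction j with
  | zero =>
    rw [TJ_succ, TJ, GG, gz_C, DD, hF]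
    have h1 : fz (scaleRoots R 2) = 2 ^ R.natDegree * aeval u R := by
      have := Polynomial.scaleRoots_eval₂_mul (algebraMap ℤ (PowerSeries ℚ)) u 2 (p := R)
      rw [fz_apply, aeval_def, aeval_def]
      simpa using this
    have h7 : w ^ 2 * wi ^ 2 = 1 := by rw [← mul_pow, w_mul_wi h, one_pow]
    rw [h1, Nat.cast_zero, zero_mul, zero_mul, sub_zero]
    linear_combination (2 ^ R.natDegree * w ^ N * aeval u R) * h7
  | succ j ih =>
    rw [GG, ← nab_spec h, ← ih, TJ_succ]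
    have hc : (2 : PowerSeries ℚ) ^ R.natDegree = PowerSeries.C (2 ^ R.natDegree) := by
      rw [map_pow]; rfl
    have hD : ∀ g : PowerSeries ℚ, DD (2 ^ R.natDegree * g) = 2 ^ R.natDegree * DD g := by
      intro g
      rw [hc, DD, DD, ← PowerSeries.smul_eq_C_mul, th.map_smul, PowerSeries.smul_eq_C_mul]
      ring
    rw [hD]
    ring

/-! ### 2-integral series -/

lemma mem_Z2 (x : ℚ) : x ∈ Z2 ↔ Odd x.den := Iff.rfl

lemma mem_Ser2 (f : PowerSeries ℚ) : f ∈ Ser2 ↔ ∀ n, PowerSeries.coeff (R := ℚ) n f ∈ Z2 := by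
  constructor
  · rintro ⟨g, rfl⟩ n
    rw [PowerSeries.coeff_map]
    exact (PowerSeries.coeff n g).2
  · intro hf
    refine ⟨PowerSeries.mk fun n => ⟨PowerSeries.coeff (R := ℚ) n f, hf n⟩, ?_⟩
    ext n
    rw [PowerSeries.coeff_map, PowerSeries.coeff_mk]
    rfl

lemma IntSer_le : IntSer ≤ Ser2 := by
  rintro f ⟨g, rfl⟩
  rw [mem_Ser2]
  intro n
  rw [PowerSeries.coeff_map, mem_Z2]
  simp

lemma ng_IntSer {f : PowerSeries ℚ} (hf : f ∈ IntSer) : ng f ∈ IntSer := by
  obtain ⟨g, rfl⟩ := hf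
  refine ⟨PowerSeries.rescale (-1) g, ?_⟩
  ext n
  rw [PowerSeries.coeff_map, PowerSeries.coeff_rescale, ng, PowerSeries.coeff_rescale,
    PowerSeries.coeff_map]
  simp

lemma fz_IntSer (h : Theta) (f : Z1) : fz f ∈ IntSer := by
  induction f using Polynomial.induction_on' with
  | add p q hp hq => rw [map_add]; exact add_mem hp hq
  | monomial n a =>
    rw [← C_mul_X_pow_eq_monomial, map_mul, map_pow, fz_X, fz_apply, aeval_C]
    refine mul_mem ?_ (pow_mem (mul_mem (ofNat_mem _ 2) h.u_int) _)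
    simp only [eq_intCast]
    exact intCast_mem _ a

lemma gz_IntSer (h : Theta) (f : Z2') : gz f ∈ IntSer := by
  induction f using Polynomial.induction_on' with
  | add p q hp hq => rw [map_add]; exact add_mem hp hq
  | monomial n a =>
    rw [← C_mul_X_pow_eq_monomial, map_mul, map_pow, gz_X, gz_C]
    exact mul_mem (fz_IntSer h a) (pow_mem h.zt_int _)

lemma cj (j : ℕ) : ∃ (m : ℕ) (a : ℤ), Odd m ∧ (-2 : ℚ) ^ j / (Nat.factorial j : ℚ) = a / m := by
  obtain ⟨e, m, hm, he⟩ := Nat.exists_eq_two_pow_mul_odd (Nat.factorial_ne_zero j)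
  have hej : e ≤ j := by
    rcases Nat.eq_zero_or_pos j with rfl | hj
    · rw [Nat.factorial_zero] at he
      rcases Nat.eq_zero_or_pos e with h0 | h0
      · omega
      · exfalso
        have : (2 : ℕ) ∣ 1 := by
          rw [he]; exact Dvd.dvd.mul_right (dvd_pow_self 2 (by omega)) m
        omega
    · have h1 := Nat.emultiplicity_two_factorial_lt (n := j) (by omega)
      have h2 : (2 : ℕ) ^ e ∣ Nat.factorial j := ⟨m, he⟩
      have h3 := le_emultiplicity_of_pow_dvd h2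
      have h4 : (e : ℕ∞) < j := lt_of_le_of_lt h3 h1
      exact le_of_lt (by exact_mod_cast h4)
  refine ⟨m, (-1) ^ j * 2 ^ (j - e), hm, ?_⟩
  have hm0 : (m : ℚ) ≠ 0 := by
    have := hm.pos
    exact_mod_cast (by omega : m ≠ 0)
  rw [he]
  have : (2 : ℚ) ^ j = 2 ^ (j - e) * 2 ^ e := by rw [← pow_add]; congr 1; omega
  have h5 : (-2 : ℚ) ^ j = (-1) ^ j * 2 ^ j := by rw [← mul_pow]; norm_num
  rw [h5, this]
  push_cast
  field_simp

lemma cj_mem (j : ℕ) : (-2 : ℚ) ^ j / (Nat.factorial j : ℚ) ∈ Z2 := by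
  obtain ⟨m, a, hm, e⟩ := cj j
  rw [e, mem_Z2]
  have h1 : ((a : ℚ) / (m : ℚ)).den ∣ m := by
    have := Rat.den_dvd a m
    exact_mod_cast this
  exact Odd.of_dvd_nat hm h1

lemma cj_common (J : ℕ) : ∃ c : ℕ, Odd c ∧ ∀ j ≤ J, ∃ a : ℤ,
    (c : ℚ) * ((-2 : ℚ) ^ j / (Nat.factorial j : ℚ)) = a := by
  induction J with
  | zero => exact ⟨1, odd_one, fun j hj => ⟨1, by rw [Nat.le_zero.mp hj]; simp⟩⟩
  | succ J ih =>
    obtain ⟨c, hc, hcj⟩ := ih
    obtain ⟨m, a, hm, e⟩ := cj (J + 1)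
    have hm0 : (m : ℚ) ≠ 0 := by
      have := hm.pos
      exact_mod_cast (by omega : m ≠ 0)
    refine ⟨c * m, hc.mul hm, fun j hj => ?_⟩
    rcases Nat.lt_or_ge J j with hj' | hj'
    · have : j = J + 1 := by omega
      subst this
      refine ⟨c * a, ?_⟩
      rw [e]
      push_cast
      field_simp
    · obtain ⟨b, hb⟩ := hcj j hj'
      refine ⟨m * b, ?_⟩
      push_cast
      rw [← hb]
      ring

lemma si_pow (h : Theta) (a b : ℕ) (hab : b ≤ a) :
    (1 - 8 * u) ^ a * si ^ b = (1 - 8 * u) ^ (a - b) := by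
  obtain ⟨c, rfl⟩ := Nat.exists_eq_add_of_le hab
  rw [pow_add, mul_right_comm, ← mul_pow, si_mul h, one_pow, one_mul, Nat.add_sub_cancel_left]

lemma si_int (h : Theta) : si ∈ IntSer := mul_mem h.w_int (ng_IntSer h.wi_int)

theorem near (h : Theta) : S_Near := by
  intro N R F hF hodd M
  set r := R.natDegree with hr
  set J := 4 * M + 1 with hJ
  obtain ⟨c, hc, hcj⟩ := cj_common J
  choose! a ha using hcj
  -- the finite Taylor sum
  set S : PowerSeries ℚ := ∑ j ∈ Finset.range (J + 1),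
    PowerSeries.C ((-2) ^ j / (Nat.factorial j : ℚ)) * si ^ (2 * j) * TJ j F with hS
  -- the remainder is small
  have hrem : ∀ n, ∃ x ∈ Z2, PowerSeries.coeff (R := ℚ) n (2 ^ r * (ng F - S)) = 2 ^ M * x := by
    intro n
    have hterm : ∀ j, J < j → ∃ x ∈ Z2, PowerSeries.coeff (R := ℚ) n (2 ^ r *
        (PowerSeries.C ((-2) ^ j / (Nat.factorial j : ℚ)) * si ^ (2 * j) * TJ j F)) = 2 ^ M * x := by
      intro j hj
      obtain ⟨i, rfl⟩ : ∃ i, j = i + 1 := ⟨j - 1, by omega⟩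
      obtain ⟨g, hg⟩ := GG_dvd N (scaleRoots R 2) M i (by omega)
      have h1 := TJ_GG h N R F hF i
      have h2 : 2 ^ r * (PowerSeries.C ((-2) ^ (i + 1) / (Nat.factorial (i + 1) : ℚ)) *
          si ^ (2 * (i + 1)) * TJ (i + 1) F) = PowerSeries.C (2 ^ M) *
          (PowerSeries.C ((-2) ^ (i + 1) / (Nat.factorial (i + 1) : ℚ)) *
          (si ^ (2 * (i + 1)) * (w ^ N * gz g))) := by
        have h3 : 2 ^ r * (PowerSeries.C ((-2) ^ (i + 1) / (Nat.factorial (i + 1) : ℚ)) *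
          si ^ (2 * (i + 1)) * TJ (i + 1) F) =
          PowerSeries.C ((-2) ^ (i + 1) / (Nat.factorial (i + 1) : ℚ)) *
          si ^ (2 * (i + 1)) * (2 ^ r * TJ (i + 1) F) := by ring
        have h4 : PowerSeries.C ((2 : ℚ) ^ M) = 2 ^ M := by rw [map_pow]; rfl
        rw [h3, h1, hg, h4, map_mul, map_pow, map_ofNat]
        ring
      rw [h2, PowerSeries.coeff_C_mul, PowerSeries.coeff_C_mul]
      refine ⟨_, mul_mem (cj_mem (i + 1)) ?_, rfl⟩
      have h5 : si ^ (2 * (i + 1)) * (w ^ N * gz g) ∈ Ser2 :=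
        IntSer_le (mul_mem (pow_mem (si_int h) _) (mul_mem (pow_mem h.w_int _) (gz_IntSer h g)))
      exact (mem_Ser2 _).mp h5 n
    have htay := taylor h F n (J + 1 + (n + 1)) (by omega)
    have h6 : PowerSeries.coeff (R := ℚ) n (ng F - S) = ∑ j ∈ Finset.range (n + 1), PowerSeries.coeff (R := ℚ) n
        (PowerSeries.C ((-2) ^ (J + 1 + j) / (Nat.factorial (J + 1 + j) : ℚ)) *
          si ^ (2 * (J + 1 + j)) * TJ (J + 1 + j) F) := by
      rw [map_sub, htay, hS, map_sum, Finset.sum_range_add]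
      ring
    have h7 : (2 : PowerSeries ℚ) ^ r = PowerSeries.C (2 ^ r) := by rw [map_pow]; rfl
    choose! x hx hx' using hterm
    refine ⟨∑ j ∈ Finset.range (n + 1), x (J + 1 + j), sum_mem fun j _ => hx _ (by omega), ?_⟩
    rw [h7, PowerSeries.coeff_C_mul, h6, Finset.mul_sum, Finset.mul_sum]
    refine Finset.sum_congr rfl fun j _ => ?_
    rw [← hx' (J + 1 + j) (by omega), h7, PowerSeries.coeff_C_mul]
  choose x hx hx' using hrem
  set g0 : PowerSeries ℚ := PowerSeries.mk x with hg0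
  have hg0' : g0 ∈ Ser2 := by
    rw [mem_Ser2]; intro n; rw [hg0, PowerSeries.coeff_mk]; exact hx n
  have hg0eq : 2 ^ r * (ng F - S) = 2 ^ M * g0 := by
    ext n
    have h4 : (2 : PowerSeries ℚ) ^ M = PowerSeries.C (2 ^ M) := by rw [map_pow]; rfl
    rw [hx' n, h4, PowerSeries.coeff_C_mul, hg0, PowerSeries.coeff_mk]
  -- the polynomial `Q`
  set Q : Z1 := C (c : ℤ) * (1 - 4 * X) ^ (2 * J) with hQ
  have hQz : fz Q = (c : PowerSeries ℚ) * (1 - 8 * u) ^ (2 * J) := by
    have h1 : fz (C (c : ℤ)) = (c : PowerSeries ℚ) := by rw [fz_apply, aeval_C]; simp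
    rw [hQ, map_mul, map_pow, h1]
    simp only [map_mul, map_sub, map_one, map_ofNat, fz_X]
    ring
  set B : Z2' := - ∑ j ∈ Finset.range J,
    C (C (a (j + 1)) * (1 - 4 * X) ^ (2 * J - 2 * (j + 1))) * GG N (scaleRoots R 2) j with hB
  have hBdeg : B.natDegree ≤ N := by
    rw [hB, natDegree_neg]
    refine natDegree_sum_le_of_forall_le _ _ fun j _ => ?_
    exact (natDegree_C_mul_le _ _).trans (GG_deg N _ j)
  have hmain : fz Q * (2 ^ (r + 1) * F) = w ^ N * gz B + 2 ^ M * (-(fz Q * g0)) := by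
    have h1 : S = F + ∑ j ∈ Finset.range J,
        PowerSeries.C ((-2) ^ (j + 1) / (Nat.factorial (j + 1) : ℚ)) * si ^ (2 * (j + 1)) *
          TJ (j + 1) F := by
      rw [hS, Finset.sum_range_succ']
      simp [TJ, add_comm]
    have h2 : w ^ N * gz B = - ∑ j ∈ Finset.range J, fz Q * (2 ^ r *
        (PowerSeries.C ((-2) ^ (j + 1) / (Nat.factorial (j + 1) : ℚ)) * si ^ (2 * (j + 1)) *
          TJ (j + 1) F)) := by
      rw [hB, map_neg, map_sum, mul_neg, Finset.mul_sum]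
      congr 1
      refine Finset.sum_congr rfl fun j hj => ?_
      rw [Finset.mem_range] at hj
      have h3 := TJ_GG h N R F hF j
      have h4 : (c : PowerSeries ℚ) *
          PowerSeries.C ((-2) ^ (j + 1) / (Nat.factorial (j + 1) : ℚ)) = (a (j + 1) : ℤ) := by
        have := congrArg (PowerSeries.C (R := ℚ)) (ha (j + 1) (by omega))
        rw [map_mul] at this
        simpa using this
      have h5 := si_pow h (2 * J) (2 * (j + 1)) (by omega)
      have h6 : gz (C (C (a (j + 1)) * (1 - 4 * X) ^ (2 * J - 2 * (j + 1)))) =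
          (a (j + 1) : PowerSeries ℚ) * (1 - 8 * u) ^ (2 * J - 2 * (j + 1)) := by
        have h1 : fz (C (a (j + 1))) = (a (j + 1) : PowerSeries ℚ) := by
          rw [fz_apply, aeval_C]; simp
        rw [gz_C, map_mul, map_pow, h1]
        simp only [map_mul, map_sub, map_one, map_ofNat, fz_X]
        ring
      rw [map_mul, h6, hQz, ← h5, ← h4]
      calc w ^ N * ((c : PowerSeries ℚ) *
            PowerSeries.C ((-2) ^ (j + 1) / (Nat.factorial (j + 1) : ℚ)) *
            ((1 - 8 * u) ^ (2 * J) * si ^ (2 * (j + 1))) * gz (GG N (scaleRoots R 2) j))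
          = (c : PowerSeries ℚ) *
            PowerSeries.C ((-2) ^ (j + 1) / (Nat.factorial (j + 1) : ℚ)) *
            ((1 - 8 * u) ^ (2 * J) * si ^ (2 * (j + 1))) *
            (w ^ N * gz (GG N (scaleRoots R 2) j)) := by ring
        _ = _ := by rw [← h3]; ring
    have h8 : ng F = -F := hodd
    rw [h8, h1] at hg0eq
    rw [h2, ← Finset.mul_sum, ← Finset.mul_sum]
    rw [pow_succ]
    linear_combination (-fz Q) * hg0eq
  refine ⟨Q, fun i => B.coeff i, -(fz Q * g0), ?_, ?_, ?_⟩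
  · rw [hQ, coeff_C_mul]
    have : ((1 - 4 * X : Z1) ^ (2 * J)).coeff 0 = 1 := by
      rw [coeff_zero_eq_eval_zero]; simp
    rw [this, mul_one]
    exact_mod_cast hc
  · exact neg_mem (mul_mem (IntSer_le (fz_IntSer h Q)) hg0')
  · have h9 : gz B = ∑ i ∈ Finset.range (N + 1), aeval (2 * u) (B.coeff i) * zt ^ i := by
      show eval₂ fz zt B = _
      rw [eval₂_eq_sum_range' fz (Nat.lt_succ_of_le hBdeg)]
      rfl
    rw [← h9]
    exact hmain

end H594.OD
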