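import Pool.Agent.Run7.h594.OD.ZA

/-!
# Piece NEAR, part A: the lattice `w^N ℤ[2u][ζ]_{≤ N}` and four steps of the operators
`D - j p'(u)`
-/

set_option autoImplicit false

namespace H594.OD

open Polynomial H809.OD

/-- `ℤ[v]`, `v = 2u` -/
abbrev Z1 := Polynomial ℤ
/-- `ℤ[v][x]` -/
abbrev Z2' := Polynomial Z1

/-- `v (1 - 2v) (1 - 4v) d/dv` -/
noncomputable def e1 : Dr Z1 :=
  mkDr (fun f => (X * (1 - 2 * X) * (1 - 4 * X)) * derivative f)
    (fun a b => by rw [derivative_add, mul_add]) (fun a b => by rw [derivative_mul]; ring)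

lemma e1_apply (f : Z1) : e1 f = (X * (1 - 2 * X) * (1 - 4 * X)) * derivative f := rfl

/-- `η` as a polynomial in `v` -/
noncomputable def ev : Z1 := 2 * X * (1 - 2 * X) * (1 - 4 * X) ^ 2

/-- `p'` as a polynomial in `v` -/
noncomputable def pv : Z1 := 1 - 12 * X + 24 * X ^ 2

/-- the derivation of `ℤ[v][x]` -/
noncomputable def e2 : Dr Z2' := dx e1 (C ev - X ^ 2)

/-- the operator `D - j p'` in the coordinates of the lattice -/
noncomputable def nab (N : ℕ) (j : ℕ) (g : Z2') : Z2' :=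
  e2 g + ((N : Z2') * X - C ((j : Z1) * pv)) * g

/-- `v d/dv` -/
noncomputable def e0 : Dr Z1 :=
  mkDr (fun f => X * derivative f)
    (fun a b => by rw [derivative_add, mul_add]) (fun a b => by rw [derivative_mul]; ring)

lemma e0_apply (f : Z1) : e0 f = X * derivative f := rfl

/-- `v d/dv` on `ℤ[v][x]` -/
noncomputable def AA : Dr Z2' := dx e0 0

/-- `x² d/dx + N x` -/
noncomputable def EE (N : ℕ) (g : Z2') : Z2' := X ^ 2 * derivative g + (N : Z2') * X * g

lemma coeff_AA (g : Z2') (i : ℕ) : (AA g).coeff i = X * derivative (g.coeff i) := by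
  rw [AA, coeff_dx, zero_mul, coeff_zero, add_zero, e0_apply]

lemma two_dvd_iff (g : Z2') : (2 : Z2') ∣ g ↔ ∀ i, (2 : Z1) ∣ g.coeff i := by
  have : (2 : Z2') = C 2 := rfl
  rw [this, C_dvd_iff_dvd_coeff]

lemma two_dvd_derivative2 {A : Type*} [CommRing A] (f : A[X]) :
    (2 : A[X]) ∣ derivative (derivative f) := by
  have h := Polynomial.factorial_smul_hasseDeriv (R := A) 2
  have h2 := congrFun h f
  refine ⟨hasseDeriv 2 f, ?_⟩
  have h3 : (Nat.factorial 2) • hasseDeriv 2 f = derivative (derivative f) := h2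
  rw [← h3]
  simp [nsmul_eq_mul]

lemma AA_AA (g : Z2') : (2 : Z2') ∣ AA (AA g) - AA g := by
  rw [two_dvd_iff]
  intro i
  rw [coeff_sub, coeff_AA, coeff_AA, derivative_mul, derivative_X]
  obtain ⟨t, ht⟩ := two_dvd_derivative2 (g.coeff i)
  rw [ht]
  exact ⟨X * X * t, by ring⟩

lemma AA_EE (N : ℕ) (g : Z2') : AA (EE N g) = EE N (AA g) := by
  have h := derivative_dx e0 (0 : Z2') g
  change derivative (AA g) = AA (derivative g) + _ at h
  rw [derivative_zero, zero_mul, add_zero] at h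
  have hX : AA (X : Z2') = 0 := dx_X e0 0
  rw [EE, EE, map_add, Derivation.leibniz, Derivation.leibniz, Derivation.leibniz,
    Derivation.leibniz_pow, hX, h, Derivation.map_natCast]
  simp only [smul_eq_mul, mul_zero, add_zero, smul_zero]

lemma EE_EE (N : ℕ) (g : Z2') : (2 : Z2') ∣ EE N (EE N g) := by
  obtain ⟨t, ht⟩ := two_dvd_derivative2 g
  obtain ⟨s, hs⟩ : ∃ s : ℕ, N * (N + 1) = 2 * s := (Nat.even_mul_succ_self N).two_dvd
  have hs' : ((N : Z2') * (N + 1)) = 2 * s := by exact_mod_cast congrArg (Nat.cast (R := Z2')) hs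
  refine ⟨X ^ 4 * t + (1 + (N : Z2')) * X ^ 3 * derivative g + (s : Z2') * X ^ 2 * g, ?_⟩
  rw [EE, EE, derivative_add, derivative_mul, derivative_mul, derivative_mul, derivative_X_pow,
    derivative_natCast, derivative_X, ht]
  simp only [Nat.cast_ofNat, map_ofNat]
  linear_combination (X ^ 2 * g) * hs'

lemma EE_add (N : ℕ) (a b : Z2') : EE N (a + b) = EE N a + EE N b := by
  rw [EE, EE, EE, derivative_add]; ring

lemma EE_two (N : ℕ) (a : Z2') : EE N (2 * a) = 2 * EE N a := by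
  rw [EE, EE, derivative_mul, show (2 : Z2') = ((2 : ℕ) : Z2') by norm_num, derivative_natCast]
  ring

/-- the operator `T = A + E` -/
noncomputable def TT (N : ℕ) (g : Z2') : Z2' := AA g + EE N g

lemma TT_TT (N : ℕ) (g : Z2') : (2 : Z2') ∣ TT N (TT N g) - AA g := by
  have h : TT N (TT N g) - AA g = (AA (AA g) - AA g) + 2 * AA (EE N g) + EE N (EE N g) := by
    rw [TT, TT, map_add, EE_add, AA_EE]; ring
  rw [h]
  exact dvd_add (dvd_add (AA_AA g) (dvd_mul_right _ _)) (EE_EE N g)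

lemma nab_congr (N j : ℕ) (g : Z2') : (2 : Z2') ∣ nab N j g - (TT N g - (j : Z2') * g) := by
  rw [two_dvd_iff]
  intro i
  have h1 : nab N j g - (TT N g - (j : Z2') * g) =
      (e2 g - AA g) + (- (C ((j : Z1) * pv) - (j : Z2')) * g - X ^ 2 * derivative g) := by
    rw [nab, TT, EE]; ring
  have h2 : (e2 g).coeff i - (AA g).coeff i = (X * (1 - 2 * X) * (1 - 4 * X) - X) *
      derivative (g.coeff i) + ((C ev - X ^ 2) * derivative g).coeff i := by
    rw [e2, coeff_dx, coeff_AA, e1_apply]; ring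
  have h3 : ((C ev - X ^ 2) * derivative g).coeff i + (- (C ((j : Z1) * pv) - (j : Z2')) * g -
      X ^ 2 * derivative g).coeff i =
      (C ev * derivative g - C ((j : Z1) * (pv - 1)) * g - 2 * (X ^ 2 * derivative g)).coeff i := by
    rw [← coeff_add]
    congr 1
    rw [mul_sub, C_sub, mul_one]
    simp only [map_natCast]
    ring
  have h4 : (nab N j g - (TT N g - (j : Z2') * g)).coeff i =
      (X * (1 - 2 * X) * (1 - 4 * X) - X) * derivative (g.coeff i) +
      (C ev * derivative g - C ((j : Z1) * (pv - 1)) * g -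
        2 * (X ^ 2 * derivative g)).coeff i := by
    rw [h1, coeff_add, coeff_sub, h2, ← h3]; ring
  rw [h4]
  have h5 : (2 : Z2') ∣ (C ev * derivative g - C ((j : Z1) * (pv - 1)) * g -
        2 * (X ^ 2 * derivative g)) := by
    refine dvd_sub (dvd_sub ?_ ?_) (dvd_mul_right _ _)
    · refine Dvd.dvd.mul_right ?_ _
      rw [show (2 : Z2') = C 2 from rfl]
      refine _root_.map_dvd C ⟨X * (1 - 2 * X) * (1 - 4 * X) ^ 2, ?_⟩
      rw [ev]; ring
    · refine Dvd.dvd.mul_right ?_ _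
      rw [show (2 : Z2') = C 2 from rfl]
      refine _root_.map_dvd C ⟨(j : Z1) * (-6 * X + 12 * X ^ 2), ?_⟩
      rw [pv]; ring
  refine dvd_add (Dvd.dvd.mul_right ⟨X * (-3 * X + 4 * X ^ 2), by ring⟩ _)
    ((two_dvd_iff _).mp h5 i)

lemma nab_add (N j : ℕ) (a b : Z2') : nab N j (a + b) = nab N j a + nab N j b := by
  rw [nab, nab, nab, map_add]; ring

lemma nab_two (N j : ℕ) (a : Z2') : nab N j (2 * a) = 2 * nab N j a := by
  rw [two_mul, nab_add, ← two_mul]

lemma nab_two_pow (N j k : ℕ) (a : Z2') : nab N j (2 ^ k * a) = 2 ^ k * nab N j a := by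
  induction k with
  | zero => simp
  | succ k ih => rw [pow_succ', mul_assoc, nab_two, ih, mul_assoc]

lemma nab_two_dvd (N j : ℕ) (a : Z2') (h : (2 : Z2') ∣ a) : (2 : Z2') ∣ nab N j a := by
  obtain ⟨b, rfl⟩ := h
  rw [nab_two]
  exact dvd_mul_right _ _

lemma nab_nab (N j : ℕ) (g : Z2') : (2 : Z2') ∣ nab N (j + 1) (nab N j g) - EE N g := by
  obtain ⟨a, ha⟩ := nab_congr N j g
  obtain ⟨b, hb⟩ := nab_congr N (j + 1) (TT N g - (j : Z2') * g)
  obtain ⟨c, hc⟩ := TT_TT N g
  obtain ⟨s, hs⟩ : ∃ s : ℕ, j * (j + 1) = 2 * s := (Nat.even_mul_succ_self j).two_dvd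
  have hs' : ((j : Z2') * (j + 1)) = 2 * s := by exact_mod_cast congrArg (Nat.cast (R := Z2')) hs
  have h1 : nab N j g = (TT N g - (j : Z2') * g) + 2 * a := by rw [← ha]; ring
  have h2 : TT N (TT N g - (j : Z2') * g) = TT N (TT N g) - (j : Z2') * TT N g := by
    rw [TT, TT, TT, map_sub, map_add, Derivation.leibniz, Derivation.map_natCast]
    simp only [smul_eq_mul, mul_zero, add_zero, EE, derivative_sub, derivative_add, derivative_mul,
      derivative_natCast]
    ring
  rw [h1, nab_add, nab_two]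
  refine ⟨b + c - (j : Z2') * AA g - ((j : Z2') + 1) * EE N g + s * g + nab N (j + 1) a, ?_⟩
  rw [h2] at hb
  have h3 : TT N g = AA g + EE N g := rfl
  rw [h3] at hb hc ⊢
  push_cast at hb
  linear_combination hb + hc + g * hs'

lemma nab_four (N j : ℕ) (g : Z2') :
    (2 : Z2') ∣ nab N (j + 3) (nab N (j + 2) (nab N (j + 1) (nab N j g))) := by
  obtain ⟨a, ha⟩ := nab_nab N j g
  have h1 : nab N (j + 1) (nab N j g) = EE N g + 2 * a := by rw [← ha]; ring
  have h2 := nab_nab N (j + 2) (EE N g + 2 * a)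
  rw [← h1] at h2
  have h3 : (2 : Z2') ∣ EE N (nab N (j + 1) (nab N j g)) := by
    rw [h1, EE_add, EE_two]
    exact dvd_add (EE_EE N g) (dvd_mul_right _ _)
  have h4 := dvd_add h2 h3
  rwa [sub_add_cancel] at h4

/-- the degree in `x` stays `≤ N` -/
lemma nab_deg (N j : ℕ) (g : Z2') (hg : g.natDegree ≤ N) : (nab N j g).natDegree ≤ N := by
  rw [natDegree_le_iff_coeff_eq_zero]
  intro m hm
  obtain ⟨i, rfl⟩ : ∃ i, m = i + 1 := ⟨m - 1, by omega⟩
  have h0 : ∀ k, N < k → g.coeff k = 0 := fun k hk =>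
    coeff_eq_zero_of_natDegree_lt (lt_of_le_of_lt hg hk)
  have h1 : (nab N j g).coeff (i + 1) = e1 (g.coeff (i + 1)) +
      ((C ev - X ^ 2) * derivative g).coeff (i + 1) + (N : Z1) * g.coeff i -
      (j : Z1) * pv * g.coeff (i + 1) := by
    have e : ((N : Z2') * X - C ((j : Z1) * pv)) * g =
        C (N : Z1) * (X * g) - C ((j : Z1) * pv) * g := by
      rw [C_eq_natCast]; ring
    rw [nab, coeff_add, e2, coeff_dx, e, coeff_sub, coeff_C_mul, coeff_C_mul, coeff_X_mul]
    ring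
  rw [h1, h0 _ hm, map_zero, mul_zero, sub_mul, coeff_sub, coeff_C_mul, coeff_derivative,
    h0 (i + 1 + 1) (by omega)]
  rcases i with _ | i
  · have hN : N = 0 := by omega
    subst hN
    have : ((X : Z2') ^ 2 * derivative g).coeff (0 + 1) = 0 := by
      rw [coeff_X_pow_mul', if_neg (by omega)]
    rw [this]
    simp
  · have : ((X : Z2') ^ 2 * derivative g).coeff (i + 1 + 1) = g.coeff (i + 1) * ((i : Z1) + 1) := by
      rw [coeff_X_pow_mul', if_pos (by omega), show i + 1 + 1 - 2 = i by omega, coeff_derivative]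
    rw [this]
    rcases eq_or_lt_of_le (by omega : N ≤ i + 1) with h | h
    · rw [h]; push_cast; ring
    · rw [h0 _ h]; ring

end H594.OD
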