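import Pool.Agent.Run7.h594.OD.NearA

/-!
# Piece NEAR, part B: Taylor expansion of `F(-q)` and the end of the proof of `S_Near`
-/

set_option autoImplicit false

namespace H594.OD

open Polynomial H809.OD


lemma coef_th (f : PowerSeries ℚ) (n : ℕ) : PowerSeries.coeff (R := ℚ) n (th f) = n * PowerSeries.coeff (R := ℚ) n f := by
  have : th f = PowerSeries.X * PowerSeries.derivative ℚ f := rfl
  rw [this]
  rcases n with _ | n
  · simp
  · rw [PowerSeries.coeff_succ_X_mul, PowerSeries.coeff_derivative]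
    push_cast
    ring

/-- evaluation of `ℤ[v]` at `v = 2u` -/
noncomputable def fz : Z1 →+* PowerSeries ℚ := (aeval (2 * u) : Z1 →ₐ[ℤ] PowerSeries ℚ).toRingHom

lemma fz_apply (f : Z1) : fz f = aeval (2 * u) f := rfl

lemma fz_X : fz X = 2 * u := by rw [fz_apply, aeval_X]

/-- evaluation at `(2u, ζ)` -/
noncomputable def gz : Z2' →+* PowerSeries ℚ := eval₂RingHom fz zt

lemma gz_C (a : Z1) : gz (C a) = fz a := by simp [gz]

lemma gz_X : gz X = zt := by simp [gz]

lemma DD_two_u (h : Theta) : DD (2 * u) = fz (X * (1 - 2 * X) * (1 - 4 * X)) := by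
  have e : DD (2 * u) = 2 * DD u := by rw [two_mul, DD_add, ← two_mul]
  rw [e, DD_u h, ev1_apply, pp]
  simp only [map_mul, map_sub, map_one, map_ofNat, fz_X, aeval_X]
  ring

lemma DD_zero : DD 0 = 0 := by rw [DD, map_zero, mul_zero]

lemma DD_one : DD 1 = 0 := by rw [DD, Derivation.map_one_eq_zero, mul_zero]

lemma DD_intCast (n : ℤ) : DD (n : PowerSeries ℚ) = 0 := by
  rw [DD]
  have : th (n : PowerSeries ℚ) = 0 := by
    have := th.map_intCast n
    exact this
  rw [this, mul_zero]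

lemma DD_fz (h : Theta) (f : Z1) : DD (fz f) = fz (e1 f) := by
  induction f using Polynomial.induction_on' with
  | add p q hp hq => rw [map_add, DD_add, map_add, map_add, hp, hq]
  | monomial n a =>
    rw [← C_mul_X_pow_eq_monomial, map_mul, DD_mul, e1_apply, derivative_C_mul]
    have h1 : fz (C a) = (a : PowerSeries ℚ) := by
      rw [fz_apply, aeval_C]; simp
    rw [h1, DD_intCast, mul_zero, add_zero]
    have h2 : ∀ m : ℕ, DD (fz (X ^ m)) = fz (X * (1 - 2 * X) * (1 - 4 * X)) *
        fz (derivative (X ^ m)) := by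
      intro m
      induction m with
      | zero => rw [pow_zero, map_one, DD_one, derivative_one, map_zero, mul_zero]
      | succ m ih =>
        rw [pow_succ, map_mul, DD_mul, ih, derivative_mul, derivative_X, fz_X, DD_two_u h]
        simp only [map_mul, map_add, mul_one, fz_X]
        ring
    rw [h2]
    simp only [map_mul, h1]
    ring

lemma DD_gz (h : Theta) (f : Z2') : DD (gz f) = gz (e2 f) := by
  have h0 : DD zt = eval₂ fz zt (C ev - X ^ 2) := by
    rw [DD_zt h]
    have h1 : ev2 (C H809.OD.eta - X ^ 2) = aeval u H809.OD.eta - zt ^ 2 := by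
      simp [ev2, ev1_apply]
    have h2 : eval₂ fz zt (C ev - X ^ 2) = fz ev - zt ^ 2 := by simp
    rw [h1, h2]
    unfold H809.OD.eta ev
    simp only [map_mul, map_sub, map_one, map_ofNat, fz_X, aeval_X, map_pow]
    ring
  exact ev_dx e1 (C ev - X ^ 2) DD DD_add DD_mul fz (DD_fz h) zt h0 f

lemma th_w_eq (h : Theta) : th w = zt * w ^ 3 := by
  rw [zt, mul_assoc, ← mul_pow, mul_comm wi, w_mul_wi h, one_pow, mul_one]

lemma DD_w_pow (h : Theta) (N : ℕ) : DD (w ^ N) = N * zt * w ^ N := by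
  rcases N with _ | N
  · rw [pow_zero, DD_one]; simp
  · rw [DD, Derivation.leibniz_pow, th_w_eq h]
    have h7 : w ^ 2 * wi ^ 2 = 1 := by rw [← mul_pow, w_mul_wi h, one_pow]
    simp only [smul_eq_mul, nsmul_eq_mul, Nat.add_sub_cancel]
    linear_combination (((N + 1 : ℕ) : PowerSeries ℚ) * zt * w ^ (N + 1)) * h7

/-- `p'(u)` -/
noncomputable def pu : PowerSeries ℚ := 1 - 24 * u + 96 * u ^ 2

lemma fz_pv : fz pv = pu := by
  rw [pv, pu]
  simp only [map_add, map_mul, map_sub, map_one, map_ofNat, fz_X, map_pow]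
  ring

lemma ev1_dpp : ev1 (derivative pp) = pu := by
  rw [pp, pu, ev1_apply]
  simp only [derivative_mul, derivative_X, derivative_one, derivative_ofNat,
    map_add, map_mul, map_sub, map_one, map_ofNat, aeval_X, map_zero]
  ring

/-- the operators `T_{j+1} = (D - j p') T_j` -/
noncomputable def TJ : ℕ → PowerSeries ℚ → PowerSeries ℚ
  | 0, f => f
  | j + 1, f => DD (TJ j f) - (j : PowerSeries ℚ) * pu * TJ j f

lemma TJ_succ (j : ℕ) (f : PowerSeries ℚ) :
    TJ (j + 1) f = DD (TJ j f) - (j : PowerSeries ℚ) * pu * TJ j f := rfl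

lemma TJ_add (j : ℕ) (a b : PowerSeries ℚ) : TJ j (a + b) = TJ j a + TJ j b := by
  induction j with
  | zero => rfl
  | succ j ih => rw [TJ_succ, TJ_succ, TJ_succ, ih, DD_add]; ring

lemma DD_dvd (m : ℕ) (f : PowerSeries ℚ) (hf : PowerSeries.X ^ m ∣ f) :
    PowerSeries.X ^ m ∣ DD f := by
  rw [DD]
  refine Dvd.dvd.mul_left ?_ _
  rw [PowerSeries.X_pow_dvd_iff] at hf ⊢
  intro k hk
  rw [coef_th, hf k hk, mul_zero]

lemma TJ_dvd (j m : ℕ) (f : PowerSeries ℚ) (hf : PowerSeries.X ^ m ∣ f) :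
    PowerSeries.X ^ m ∣ TJ j f := by
  induction j with
  | zero => exact hf
  | succ j ih =>
    rw [TJ_succ]
    exact dvd_sub (DD_dvd m _ ih) (Dvd.dvd.mul_left ih _)

lemma TJ_poly (h : Theta) (j : ℕ) (f : P1) :
    TJ j (ev1 f) = ev1 (pp ^ j * derivative^[j] f) := by
  induction j with
  | zero => simp [TJ]
  | succ j ih =>
    rw [TJ_succ, ih, DD_ev1 h, d1_apply, derivative_mul, Function.iterate_succ_apply', ← ev1_dpp]
    rw [← map_natCast ev1 j, ← map_mul, ← map_mul, ← map_sub]
    congr 1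
    rcases j with _ | j
    · simp
    · rw [derivative_pow_succ]
      push_cast
      simp only [map_add, map_natCast, map_one]
      ring

/-- approximation by polynomials in `u` -/
lemma approx (h : Theta) (F : PowerSeries ℚ) (n : ℕ) :
    ∃ f : P1, PowerSeries.X ^ n ∣ F - ev1 f := by
  induction n with
  | zero => exact ⟨0, by simp⟩
  | succ n ih =>
    obtain ⟨f, g, hg⟩ := ih
    obtain ⟨t, ht⟩ : PowerSeries.X ∣ u := by
      rw [PowerSeries.X_dvd_iff, ← PowerSeries.coeff_zero_eq_constantCoeff_apply]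
      exact h.u_zero
    have ht1 : PowerSeries.coeff (R := ℚ) 0 t = 1 := by
      have := h.u_one
      rwa [ht, PowerSeries.coeff_succ_X_mul] at this
    refine ⟨f + C (PowerSeries.coeff (R := ℚ) 0 g) * X ^ n, ?_⟩
    have h1 : F - ev1 (f + C (PowerSeries.coeff (R := ℚ) 0 g) * X ^ n) =
        PowerSeries.X ^ n * (g - PowerSeries.C (PowerSeries.coeff (R := ℚ) 0 g) * t ^ n) := by
      rw [map_add, map_mul, map_pow]
      have h2 : ev1 (X : P1) = u := by rw [ev1_apply, aeval_X]
      have h3 : ev1 (C (PowerSeries.coeff (R := ℚ) 0 g)) = PowerSeries.C (PowerSeries.coeff (R := ℚ) 0 g) := by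
        rw [ev1_apply, aeval_C]; rfl
      rw [h2, h3, ← sub_sub, hg, ht, mul_pow]
      ring
    rw [h1, pow_succ]
    refine mul_dvd_mul_left _ ?_
    rw [PowerSeries.coeff_zero_eq_constantCoeff_apply] at ht1
    rw [PowerSeries.X_dvd_iff, map_sub, map_mul, map_pow, ht1]
    simp

lemma TJ_ord (h : Theta) (j : ℕ) (F : PowerSeries ℚ) : PowerSeries.X ^ j ∣ TJ j F := by
  obtain ⟨f, hf⟩ := approx h F j
  have h1 : TJ j F = TJ j (F - ev1 f) + TJ j (ev1 f) := by rw [← TJ_add, sub_add_cancel]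
  rw [h1, TJ_poly h]
  refine dvd_add (TJ_dvd j j _ hf) ?_
  rw [map_mul, map_pow]
  refine Dvd.dvd.mul_right (pow_dvd_pow_of_dvd ?_ _) _
  have : ev1 pp = u * (1 - 4 * u) * (1 - 8 * u) := by
    rw [ev1_apply, pp]
    simp only [map_mul, aeval_X, map_sub, map_one, map_ofNat]
  rw [this, mul_assoc]
  refine Dvd.dvd.mul_right ?_ _
  rw [PowerSeries.X_dvd_iff, ← PowerSeries.coeff_zero_eq_constantCoeff_apply]
  exact h.u_zero

/-- `(1 - 8u)⁻¹` -/
noncomputable def si : PowerSeries ℚ := w * ng wi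

lemma si_mul (h : Theta) : (1 - 8 * u) * si = 1 := by
  have h1 := w_mul_wi h
  have h2 : ng w * ng wi = 1 := by rw [← map_mul, h1, map_one]
  rw [h.ng_w] at h2
  rw [si]
  linear_combination h2

lemma ng_u_eq (h : Theta) : ng u = u + (-2) * ev1 pp * si ^ 2 := by
  have h1 := si_mul h
  have h2 : ev1 pp = u * (1 - 4 * u) * (1 - 8 * u) := by
    rw [ev1_apply, pp]
    simp only [map_mul, aeval_X, map_sub, map_one, map_ofNat]
  have h3 : ng u = - u * si := by
    calc ng u = ng u * ((1 - 8 * u) * si) := by rw [h1, mul_one]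
      _ = (ng u * (1 - 8 * u)) * si := by ring
      _ = - u * si := by rw [h.ng_u]
  rw [h3, h2]
  linear_combination (u + 2 * u * (1 - 4 * u) * si) * h1

lemma ng_ev1 (f : P1) : ng (ev1 f) = aeval (ng u) f := by
  induction f using Polynomial.induction_on' with
  | add p q hp hq => rw [map_add, map_add, map_add, hp, hq]
  | monomial n a =>
    rw [ev1_apply, aeval_monomial, aeval_monomial, map_mul, map_pow]
    congr 1
    have : algebraMap ℚ (PowerSeries ℚ) a = PowerSeries.C a := rfl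
    rw [this]
    ext k
    rw [ng, PowerSeries.coeff_rescale, PowerSeries.coeff_C]
    split_ifs with hk
    · rw [hk]; simp
    · simp

/-- Taylor's formula for polynomials in `u` -/
lemma taylor_poly (h : Theta) (f : P1) (m : ℕ) (hm : f.natDegree < m) :
    ng (ev1 f) = ∑ j ∈ Finset.range m,
      PowerSeries.C ((-2) ^ j / (Nat.factorial j : ℚ)) * si ^ (2 * j) * TJ j (ev1 f) := by
  rw [ng_ev1, ng_u_eq h, aeval_def, ← eval_map, add_comm, ← Polynomial.taylor_eval,
    eval_eq_sum_range' (n := m)]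
  · refine Finset.sum_congr rfl fun j _ => ?_
    rw [Polynomial.taylor_coeff, TJ_poly h, map_mul, map_pow]
    have h1 : eval u (hasseDeriv j (map (algebraMap ℚ (PowerSeries ℚ)) f)) =
        PowerSeries.C ((Nat.factorial j : ℚ)⁻¹) * ev1 (derivative^[j] f) := by
      have h2 := congrFun (Polynomial.factorial_smul_hasseDeriv (R := PowerSeries ℚ) j)
        (map (algebraMap ℚ (PowerSeries ℚ)) f)
      have h3 : (Nat.factorial j) • hasseDeriv j (map (algebraMap ℚ (PowerSeries ℚ)) f) =
        derivative^[j] (map (algebraMap ℚ (PowerSeries ℚ)) f) := h2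
      have h4 : ev1 (derivative^[j] f) =
          eval u (derivative^[j] (map (algebraMap ℚ (PowerSeries ℚ)) f)) := by
        rw [iterate_derivative_map, eval_map, ev1_apply, aeval_def]
      rw [h4, ← h3, eval_smul, nsmul_eq_mul, ← mul_assoc]
      have h5 : PowerSeries.C ((Nat.factorial j : ℚ)⁻¹) * (Nat.factorial j : PowerSeries ℚ) = 1 := by
        rw [← map_natCast (PowerSeries.C (R := ℚ)), ← map_mul, inv_mul_cancel₀, map_one]
        exact_mod_cast Nat.factorial_ne_zero j
      rw [h5, one_mul]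
    rw [h1, mul_pow, mul_pow, pow_mul, div_eq_mul_inv, map_mul]
    have h6 : PowerSeries.C ((-2 : ℚ) ^ j) = (-2) ^ j := by
      rw [map_pow, map_neg]; rfl
    rw [h6]
    ring
  · have := natDegree_taylor (map (algebraMap ℚ (PowerSeries ℚ)) f) u
    rw [this]
    exact lt_of_le_of_lt natDegree_map_le hm

/-- Taylor's formula, coefficient by coefficient -/
lemma taylor (h : Theta) (F : PowerSeries ℚ) (n m : ℕ) (hm : n < m) :
    PowerSeries.coeff (R := ℚ) n (ng F) = ∑ j ∈ Finset.range m,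
      PowerSeries.coeff (R := ℚ) n (PowerSeries.C ((-2) ^ j / (Nat.factorial j : ℚ)) * si ^ (2 * j) * TJ j F) := by
  obtain ⟨f, hf⟩ := approx h F (n + 1)
  have key : ∀ g : PowerSeries ℚ, PowerSeries.X ^ (n + 1) ∣ g → PowerSeries.coeff (R := ℚ) n g = 0 := fun g hg =>
    PowerSeries.X_pow_dvd_iff.mp hg n (Nat.lt_succ_self n)
  have h1 : PowerSeries.coeff (R := ℚ) n (ng F) = PowerSeries.coeff (R := ℚ) n (ng (ev1 f)) := by
    have e : F = (F - ev1 f) + ev1 f := by ring
    have h2 : PowerSeries.X ^ (n + 1) ∣ ng (F - ev1 f) := by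
      rw [PowerSeries.X_pow_dvd_iff] at hf ⊢
      intro k hk
      rw [ng, PowerSeries.coeff_rescale, hf k hk, mul_zero]
    conv_lhs => rw [e, map_add, map_add, key _ h2, zero_add]
  have h3 : ∀ j, PowerSeries.coeff (R := ℚ) n (PowerSeries.C ((-2) ^ j / (Nat.factorial j : ℚ)) * si ^ (2 * j) *
      TJ j F) = PowerSeries.coeff (R := ℚ) n (PowerSeries.C ((-2) ^ j / (Nat.factorial j : ℚ)) * si ^ (2 * j) *
      TJ j (ev1 f)) := by
    intro j
    have e : TJ j F = TJ j (F - ev1 f) + TJ j (ev1 f) := by rw [← TJ_add, sub_add_cancel]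
    rw [e, mul_add, map_add, key _ (Dvd.dvd.mul_left (TJ_dvd j (n + 1) _ hf) _), zero_add]
  have h4 : ∀ j, m ≤ j → PowerSeries.coeff (R := ℚ) n (PowerSeries.C ((-2) ^ j / (Nat.factorial j : ℚ)) *
      si ^ (2 * j) * TJ j (ev1 f)) = 0 := by
    intro j hj
    refine key _ (Dvd.dvd.mul_left ?_ _)
    exact dvd_trans (pow_dvd_pow _ (by omega)) (TJ_ord h j (ev1 f))
  rw [h1, taylor_poly h f (m + (f.natDegree + 1)) (by omega), map_sum,
    Finset.sum_congr rfl fun j _ => h3 j]
  symm
  refine Finset.sum_subset (fun j hj => ?_) (fun j _ hj => ?_)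
  · rw [Finset.mem_range] at hj ⊢; omega
  · rw [Finset.mem_range, not_lt] at hj
    exact h4 j hj

end H594.OD
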