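import Pool.Agent.Run7.h809.OD.Defs

/-!
# Piece ZERO, part A: derivations on `ℚ[u][x][y]`, evaluation at `(u, ζ, G)`
-/

set_option autoImplicit false

namespace H594.OD

open Polynomial H809.OD

section General

variable {A : Type*} [CommRing A]

/-- derivations of a ring (the `ℤ`-algebra structure is the canonical one) -/
abbrev Dr (A : Type*) [CommRing A] := Derivation ℤ A A

/-- constructor -/
def mkDr (f : A → A) (hadd : ∀ a b, f (a + b) = f a + f b)
    (hmul : ∀ a b, f (a * b) = a * f b + b * f a) : Dr A :=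
  Derivation.mk' (AddMonoidHom.toIntLinearMap (AddMonoidHom.mk' f hadd)) hmul

lemma mkDr_apply (f : A → A) (hadd hmul) (a : A) : mkDr f hadd hmul a = f a := rfl

/-- the derivation of `A[X]` which is `d` on `A` and sends `X` to `v` -/
noncomputable def dx (d : Dr A) (v : A[X]) : Dr A[X] :=
  mkDr (@Differential.implicitDeriv A _ ⟨d⟩ v) (fun a b => map_add _ a b)
    (fun a b => Derivation.leibniz _ a b)

lemma dx_C (d : Dr A) (v : A[X]) (a : A) : dx d v (C a) = C (d a) := by
  let _ : Differential A := ⟨d⟩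
  exact Differential.implicitDeriv_C v a

lemma dx_X (d : Dr A) (v : A[X]) : dx d v X = v := by
  let _ : Differential A := ⟨d⟩
  exact Differential.implicitDeriv_X v

lemma coeff_dx (d : Dr A) (v f : A[X]) (n : ℕ) :
    (dx d v f).coeff n = d (f.coeff n) + (v * derivative f).coeff n := by
  let _ : Differential A := ⟨d⟩
  rw [dx, mkDr_apply, Differential.implicitDeriv, Derivation.add_apply, coeff_add,
    Differential.coeff_mapCoeffs]
  rfl

lemma ev_dx {S : Type*} [CommRing S] (d : Dr A) (v : A[X]) (D : S → S)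
    (hadd : ∀ a b, D (a + b) = D a + D b) (hmul : ∀ a b, D (a * b) = a * D b + b * D a)
    (φ : A →+* S) (hφ : ∀ a, D (φ a) = φ (d a)) (x : S) (hx : D x = eval₂ φ x v) (f : A[X]) :
    D (eval₂ φ x f) = eval₂ φ x (dx d v f) := by
  have hone : D 1 = 0 := by
    have := hmul 1 1
    rw [one_mul, one_mul] at this
    exact left_eq_add.mp this
  have hpow : ∀ n : ℕ, D (x ^ n) = eval₂ φ x (dx d v (X ^ n)) := by
    intro n
    induction n with
    | zero => rw [pow_zero, hone, pow_zero, Derivation.map_one_eq_zero, eval₂_zero]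
    | succ n ih =>
      rw [pow_succ, hmul, ih, hx, pow_succ, Derivation.leibniz, dx_X]
      simp only [smul_eq_mul, eval₂_add, eval₂_mul, eval₂_pow, eval₂_X]
  induction f using Polynomial.induction_on' with
  | add p q hp hq => rw [eval₂_add, hadd, map_add, eval₂_add, hp, hq]
  | monomial n a =>
    rw [← C_mul_X_pow_eq_monomial, eval₂_mul, eval₂_pow, eval₂_X, eval₂_C, Derivation.leibniz,
      hmul, dx_C, hφ, hpow]
    simp only [smul_eq_mul, eval₂_add, eval₂_mul, eval₂_C, eval₂_pow, eval₂_X]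

lemma derivative_dx (d : Dr A) (v f : A[X]) :
    derivative (dx d v f) = dx d v (derivative f) + derivative v * derivative f := by
  ext n
  rw [coeff_derivative, coeff_dx, coeff_add, coeff_dx, coeff_derivative]
  have h1 : (v * derivative f).coeff (n + 1) * ((n : A) + 1) =
      (v * derivative (derivative f)).coeff n + (derivative v * derivative f).coeff n := by
    rw [← coeff_derivative, derivative_mul, coeff_add, add_comm]
  have h2 : d (f.coeff (n + 1) * ((n : A) + 1)) = d (f.coeff (n + 1)) * ((n : A) + 1) := by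
    have : ((n : A) + 1) = ((n + 1 : ℕ) : A) := by push_cast; ring
    rw [this, Derivation.leibniz, Derivation.map_natCast]
    simp [mul_comm]
  rw [add_mul, h1, h2]
  ring

lemma natDegree_dx_le (d : Dr A) (v f : A[X]) (e : ℕ) (hv : v.natDegree ≤ e + 1) :
    (dx d v f).natDegree ≤ f.natDegree + e := by
  rw [natDegree_le_iff_coeff_eq_zero]
  intro m hm
  rw [coeff_dx, coeff_eq_zero_of_natDegree_lt (by omega : f.natDegree < m), map_zero, zero_add]
  by_cases hf : f.natDegree = 0
  · rw [derivative_of_natDegree_zero hf, mul_zero, coeff_zero]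
  · apply coeff_eq_zero_of_natDegree_lt
    have h1 := natDegree_mul_le (p := v) (q := derivative f)
    have h2 := natDegree_derivative_lt hf
    omega

end General

/-- `ℚ[u]` -/
abbrev P1 := Polynomial ℚ
/-- `ℚ[u][x]` -/
abbrev P2 := Polynomial P1
/-- `ℚ[u][x][y]` -/
abbrev P3 := Polynomial P2

/-- `p d/du` -/
noncomputable def d1 : Dr P1 :=
  mkDr (fun f => pp * derivative f) (fun a b => by rw [derivative_add, mul_add])
    (fun a b => by rw [derivative_mul]; ring)

lemma d1_apply (f : P1) : d1 f = pp * derivative f := rfl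

/-- the derivation of `ℚ[u][x]` with `x ↦ η - x²` -/
noncomputable def d2 : Dr P2 := dx d1 (C eta - X ^ 2)

/-- the derivation of `ℚ[u][x][y]` with `y ↦ R - N x y` -/
noncomputable def d3 (N : ℕ) (R : P1) : Dr P3 :=
  dx d2 (C (C R) - C ((N : P2) * X) * X)

/-- evaluation at `u` -/
noncomputable def ev1 : P1 →+* PowerSeries ℚ := (aeval u : P1 →ₐ[ℚ] PowerSeries ℚ).toRingHom

lemma ev1_apply (f : P1) : ev1 f = aeval u f := rfl

/-- evaluation at `(u, ζ)` -/
noncomputable def ev2 : P2 →+* PowerSeries ℚ := eval₂RingHom ev1 zt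

/-- evaluation at `(u, ζ, G)` -/
noncomputable def ev3 (G : PowerSeries ℚ) : P3 →+* PowerSeries ℚ := eval₂RingHom ev2 G

/-- the derivation `w⁻² θ` -/
noncomputable def DD (f : PowerSeries ℚ) : PowerSeries ℚ := wi ^ 2 * th f

lemma DD_apply (f : PowerSeries ℚ) : DD f = wi ^ 2 * th f := rfl

lemma DD_add (a b : PowerSeries ℚ) : DD (a + b) = DD a + DD b := by
  rw [DD, map_add, mul_add]; rfl

lemma DD_mul (a b : PowerSeries ℚ) : DD (a * b) = a * DD b + b * DD a := by
  rw [DD, DD, DD, Derivation.leibniz, smul_eq_mul, smul_eq_mul]; ring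

lemma w_mul_wi (h : Theta) : w * wi = 1 := by
  apply PowerSeries.mul_inv_cancel
  rw [← PowerSeries.coeff_zero_eq_constantCoeff_apply, h.w_zero]
  exact one_ne_zero

lemma DD_u (h : Theta) : DD u = ev1 pp := by
  rw [DD_apply, h.th_u, ev1_apply, pp]
  have := w_mul_wi h
  simp only [map_mul, aeval_X, map_sub, map_one, map_ofNat]
  linear_combination (u * (1 - 4 * u) * (1 - 8 * u)) * (w * wi + 1) * this

lemma DD_zt (h : Theta) : DD zt = ev2 (C eta - X ^ 2) := by
  rw [DD_apply, h.th_zt]
  have h1 := w_mul_wi h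
  have h2 : ev2 (C eta - X ^ 2) = ev1 eta - zt ^ 2 := by
    simp [ev2]
  rw [h2, ev1_apply]
  unfold H809.OD.eta
  simp only [map_mul, aeval_X, map_sub, map_one, map_ofNat, map_pow]
  linear_combination (4 * u * (1 - 4 * u) * (1 - 8 * u) ^ 2 - zt ^ 2) * (w * wi + 1) * h1

lemma DD_ev1 (h : Theta) (f : P1) : DD (ev1 f) = ev1 (d1 f) := by
  have : DD (ev1 f) = aeval u (derivative f) * DD u := by
    have key : th (aeval u f) = aeval u (derivative f) * th u := by
      rw [Derivation.map_aeval, smul_eq_mul]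
    rw [DD, DD, ev1_apply, key]
    ring
  rw [this, DD_u h, d1_apply, map_mul, mul_comm]
  rfl

lemma DD_ev2 (h : Theta) (f : P2) : DD (ev2 f) = ev2 (d2 f) := by
  have h0 : DD zt = eval₂ ev1 zt (C H809.OD.eta - X ^ 2) := DD_zt h
  exact ev_dx d1 (C H809.OD.eta - X ^ 2) DD DD_add DD_mul ev1
    (DD_ev1 h) zt h0 f

/-- `G = F w^(-N)` satisfies `D G = R(u) - N ζ G` -/
lemma DD_G (h : Theta) (N : ℕ) (R : P1) (F : PowerSeries ℚ)
    (hF : th F = w ^ (N + 2) * aeval u R) :
    DD (F * wi ^ N) = ev3 (F * wi ^ N) (C (C R) - C ((N : P2) * X) * X) := by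
  have h1 := w_mul_wi h
  have h2 : ev3 (F * wi ^ N) (C (C R) - C ((N : P2) * X) * X) =
      aeval u R - (N : PowerSeries ℚ) * zt * (F * wi ^ N) := by
    simp [ev3, ev2, ev1_apply]
  have h3 : th wi = - wi ^ 2 * th w := by
    have := congrArg th h1
    rw [Derivation.leibniz, Derivation.map_one_eq_zero] at this
    simp only [smul_eq_mul] at this
    have h5 : th wi = wi * (w * th wi) := by rw [← mul_assoc, mul_comm wi w, h1, one_mul]
    rw [h5]
    linear_combination wi * this
  have h4 : th (wi ^ N) = -(N : PowerSeries ℚ) * zt * w ^ 2 * wi ^ N := by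
    rw [Derivation.leibniz_pow, h3, zt]
    rcases N with _ | N
    · simp
    · simp only [Nat.add_sub_cancel, smul_eq_mul, nsmul_eq_mul]
      have : w ^ 2 * wi ^ 2 = 1 := by rw [← mul_pow, h1, one_pow]
      linear_combination (((N + 1 : ℕ) : PowerSeries ℚ) * th w * wi ^ (N + 2)) * this
  rw [h2, DD_apply, Derivation.leibniz, hF, h4]
  simp only [smul_eq_mul]
  have h6 : w ^ (N + 2) * wi ^ (N + 2) = 1 := by rw [← mul_pow, h1, one_pow]
  have h7 : w ^ 2 * wi ^ 2 = 1 := by rw [← mul_pow, h1, one_pow]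
  linear_combination (aeval u R) * h6 - (N : PowerSeries ℚ) * zt * F * wi ^ N * h7

lemma DD_ev3 (h : Theta) (N : ℕ) (R : P1) (F : PowerSeries ℚ)
    (hF : th F = w ^ (N + 2) * aeval u R) (f : P3) :
    DD (ev3 (F * wi ^ N) f) = ev3 (F * wi ^ N) (d3 N R f) := by
  have h0 : DD (F * wi ^ N) = eval₂ ev2 (F * wi ^ N) (C (C R) - C ((N : P2) * X) * X) :=
    DD_G h N R F hF
  exact ev_dx d2 (C (C R) - C ((N : P2) * X) * X) DD DD_add DD_mul ev2
    (DD_ev2 h) (F * wi ^ N) h0 f

end H594.OD
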